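import Mathlib

/-!
# MP_9bf48e_al: closedness of irreducible elementary nets of `R`-modules

Let `R` be a principal ideal domain which is not a field, `k` its field of fractions, `K` an
algebraic extension of `k` and `n ≥ 2`. We show that all irreducible elementary nets of order `n`
over `K` consisting of `R`-modules are closed if and only if `n ≥ 3` and `K = k`.

In particular the answer to the question is negative, for every `n`.

The counterexample for `K ≠ k`: let `θ ∈ K` be integral over `R`, not in `k`, let `O = R[θ]`, let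
`π` be a nonzero nonunit of `R`, and let `σ₁₂ = R + π O`, `σ₁ⱼ = σ₂ⱼ = π O` for `j ≥ 3`, and
`σᵢⱼ = O` for all other `i ≠ j`. Then `w = t₁₂(1) t₂₁(-1) t₁₂(1)` conjugates `t₂₁(θ)` into
`t₁₂(-θ)`, and `θ` does not lie in `R + π O`.
-/

set_option autoImplicit false

open Matrix

namespace Pool.Agent.Results.MP_9bf48e_al.ClosedNets

/-- An elementary net of order `n` over `K` consisting of `R`-modules: a family of
`R`-submodules `σ i j` of `K`, indexed by the pairs `i ≠ j` (the diagonal values of the function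
`σ` play no role), such that `σ i r * σ r j ⊆ σ i j` whenever `i, r, j` are pairwise distinct. -/
structure ElementaryNet (R K : Type*) [CommRing R] [Field K] [Algebra R K] (n : ℕ) where
  /-- the modules `σ i j` (only used for `i ≠ j`) -/
  σ : Fin n → Fin n → Submodule R K
  mul_mem' : ∀ i r j : Fin n, i ≠ r → r ≠ j → i ≠ j → ∀ a ∈ σ i r, ∀ b ∈ σ r j, a * b ∈ σ i j

namespace ElementaryNet

variable {R K : Type*} [CommRing R] [Field K] [Algebra R K] {n : ℕ}

/-- The net is irreducible: all `σ i j`, `i ≠ j`, are nonzero. -/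
def Irreducible (N : ElementaryNet R K n) : Prop :=
  ∀ i j : Fin n, i ≠ j → N.σ i j ≠ ⊥

/-- The elementary net subgroup `E(σ)` of `GL(n, K)`, generated by the elementary transvections
`t i j a = e + a e_{ij}` with `i ≠ j` and `a ∈ σ i j`. -/
def E (N : ElementaryNet R K n) : Subgroup (GL (Fin n) K) :=
  Subgroup.closure {g | ∃ i j : Fin n, i ≠ j ∧ ∃ a ∈ N.σ i j,
    (g : Matrix (Fin n) (Fin n) K) = 1 + Matrix.single i j a}

/-- The net is closed: every elementary transvection `t i j a` in `E(σ)` has `a ∈ σ i j`. -/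
def Closed (N : ElementaryNet R K n) : Prop :=
  ∀ i j : Fin n, i ≠ j → ∀ a : K, ∀ g ∈ N.E,
    (g : Matrix (Fin n) (Fin n) K) = 1 + Matrix.single i j a → a ∈ N.σ i j

end ElementaryNet

/-! ### Transvections as elements of `GL` -/

section Transvections

variable {K : Type*} [Field K] {n : ℕ}

/-- the transvection `e + a e_{ij}` as an element of `GL(n, K)` -/
def tr (i j : Fin n) (h : i ≠ j) (a : K) : GL (Fin n) K where
  val := 1 + Matrix.single i j a
  inv := 1 + Matrix.single i j (-a)
  val_inv := by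
    rw [mul_add, add_mul, add_mul, Matrix.single_mul_single_of_ne _ _ _ _ h.symm, ← add_assoc]
    simp [add_assoc, ← Matrix.single_add]
  inv_val := by
    rw [mul_add, add_mul, add_mul, Matrix.single_mul_single_of_ne _ _ _ _ h.symm, ← add_assoc]
    simp [add_assoc, ← Matrix.single_add]

lemma conj_tr (i j : Fin n) (h : i ≠ j) (c : K) :
    tr i j h 1 * tr j i h.symm (-1) * tr i j h 1 * tr j i h.symm c =
      tr i j h (-c) * (tr i j h 1 * tr j i h.symm (-1) * tr i j h 1) := by
  apply Units.ext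
  show ((1 + Matrix.single i j (1 : K)) * (1 + Matrix.single j i (-1 : K)) *
      (1 + Matrix.single i j (1 : K)) * (1 + Matrix.single j i c)) =
    (1 + Matrix.single i j (-c)) * ((1 + Matrix.single i j (1 : K)) *
      (1 + Matrix.single j i (-1 : K)) * (1 + Matrix.single i j (1 : K)))
  simp only [mul_add, add_mul, one_mul, mul_one, Matrix.single_mul_single_same,
    Matrix.single_mul_single_of_ne _ _ _ _ h, Matrix.single_mul_single_of_ne _ _ _ _ h.symm,
    add_zero, mul_neg, neg_mul]
  ext a b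
  simp only [Matrix.add_apply, Matrix.single_apply, Matrix.one_apply]
  split_ifs <;> ring_nf

end Transvections

section General

variable {R K : Type*} [CommRing R] [Field K] [Algebra R K] {n : ℕ}

lemma tr_mem (N : ElementaryNet R K n) {i j : Fin n} (h : i ≠ j) {a : K} (ha : a ∈ N.σ i j) :
    tr i j h a ∈ N.E :=
  Subgroup.subset_closure ⟨i, j, h, a, ha, rfl⟩

/-- If `1 ∈ σ i j`, `1 ∈ σ j i` and `σ j i` is not contained in `σ i j`, the net is not closed. -/
lemma not_closed (N : ElementaryNet R K n) {i j : Fin n} (h : i ≠ j) (h1 : (1 : K) ∈ N.σ i j)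
    (h2 : (1 : K) ∈ N.σ j i) {c : K} (hc : c ∈ N.σ j i) (hc' : c ∉ N.σ i j) : ¬ N.Closed := by
  intro hN
  apply hc'
  have hw : tr i j h 1 * tr j i h.symm (-1) * tr i j h 1 ∈ N.E :=
    mul_mem (mul_mem (tr_mem N h h1) (tr_mem N h.symm (neg_mem h2))) (tr_mem N h h1)
  have key : tr i j h (-c) ∈ N.E := by
    have h3 : tr i j h (-c) = (tr i j h 1 * tr j i h.symm (-1) * tr i j h 1) *
        tr j i h.symm c * (tr i j h 1 * tr j i h.symm (-1) * tr i j h 1)⁻¹ := by
      rw [eq_mul_inv_iff_mul_eq]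
      exact (conj_tr i j h c).symm
    rw [h3]
    exact mul_mem (mul_mem hw (tr_mem N h.symm hc)) (inv_mem hw)
  have := hN i j h (-c) _ key rfl
  simpa using neg_mem this

end General

/-! ### The case `K = k`, `n ≥ 3`: all nets are closed -/

section Closed

variable {R K : Type*} [CommRing R] [IsDomain R] [IsPrincipalIdealRing R] [Field K] [Algebra R K]
  [IsFractionRing R K] {n : ℕ}

/-- multipliers of a submodule -/
def Mult (M : Submodule R K) (x : K) : Prop := ∀ z ∈ M, x * z ∈ M

omit [IsDomain R] [IsPrincipalIdealRing R] [IsFractionRing R K] in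
lemma Mult.mul {M : Submodule R K} {x y : K} (hx : Mult M x) (hy : Mult M y) : Mult M (x * y) := by
  intro z hz
  rw [mul_assoc]
  exact hx _ (hy _ hz)

omit [IsDomain R] [IsPrincipalIdealRing R] [IsFractionRing R K] in
lemma Mult.add {M : Submodule R K} {x y : K} (hx : Mult M x) (hy : Mult M y) : Mult M (x + y) := by
  intro z hz
  rw [add_mul]
  exact add_mem (hx _ hz) (hy _ hz)

omit [IsDomain R] [IsPrincipalIdealRing R] [IsFractionRing R K] in
lemma Mult.algebraMap (M : Submodule R K) (r : R) : Mult M (algebraMap R K r) := by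
  intro z hz
  rw [← Algebra.smul_def]
  exact M.smul_mem r hz

omit [IsDomain R] [IsPrincipalIdealRing R] [IsFractionRing R K] in
lemma Mult.one (M : Submodule R K) : Mult M (1 : K) := by
  intro z hz
  rwa [one_mul]

/-- `M` contains a nonzero element infinitely divisible by `p` -/
def Dvb (p : R) (M : Submodule R K) : Prop :=
  ∃ z : K, z ≠ 0 ∧ ∀ m : ℕ, z * ((algebraMap R K p)⁻¹) ^ m ∈ M

omit [IsDomain R] [IsPrincipalIdealRing R] [IsFractionRing R K] in
lemma dvb_of_mult {p : R} {M : Submodule R K} (hM : M ≠ ⊥)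
    (h : Mult M (algebraMap R K p)⁻¹) : Dvb p M := by
  obtain ⟨z, hz, hz0⟩ := M.ne_bot_iff.1 hM
  refine ⟨z, hz0, fun m => ?_⟩
  induction m with
  | zero => simpa using hz
  | succ m ih =>
    have := h _ ih
    rw [pow_succ]
    convert this using 1
    ring

lemma mult_of_dvb {p : R} (hp : Irreducible p) {M : Submodule R K} (h : Dvb p M) :
    Mult M (algebraMap R K p)⁻¹ := by
  obtain ⟨z₀, hz₀, hz⟩ := h
  have hinj : Function.Injective (algebraMap R K) := IsFractionRing.injective R K
  have hp0 : algebraMap R K p ≠ 0 := by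
    rw [Ne, map_eq_zero_iff _ hinj]
    exact hp.ne_zero
  intro z hzM
  obtain ⟨r, s, hs, hrs⟩ := IsFractionRing.div_surjective (A := R) (z / z₀)
  have hs0 : s ≠ 0 := nonZeroDivisors.ne_zero hs
  obtain ⟨e, s', hps', hse⟩ := WfDvdMonoid.max_power_factor hs0 hp
  have hs0' : algebraMap R K s ≠ 0 := by
    rw [Ne, map_eq_zero_iff _ hinj]
    exact hs0
  have hs1 : algebraMap R K s' ≠ 0 := by
    intro h0
    apply hs0'
    rw [hse, map_mul, h0, mul_zero]
  have hzz : z * algebraMap R K s = algebraMap R K r * z₀ := by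
    field_simp at hrs
    linear_combination -hrs
  have h1 : algebraMap R K s' * ((algebraMap R K p)⁻¹ * z) ∈ M := by
    have h2 : algebraMap R K s' * ((algebraMap R K p)⁻¹ * z) =
        algebraMap R K r * (z₀ * ((algebraMap R K p)⁻¹) ^ (e + 1)) := by
      rw [hse, map_mul, map_pow] at hzz
      rw [inv_pow]
      field_simp
      linear_combination (algebraMap R K p) * hzz
    rw [h2, ← Algebra.smul_def]
    exact M.smul_mem r (hz _)
  have h2 : algebraMap R K p * ((algebraMap R K p)⁻¹ * z) ∈ M := by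
    rwa [mul_inv_cancel_left₀ hp0]
  have hcop : IsCoprime p s' := (Irreducible.coprime_iff_not_dvd hp).2 hps'
  obtain ⟨u, v, huv⟩ := hcop
  have h3 : (algebraMap R K p)⁻¹ * z =
      u • (algebraMap R K p * ((algebraMap R K p)⁻¹ * z)) +
      v • (algebraMap R K s' * ((algebraMap R K p)⁻¹ * z)) := by
    rw [Algebra.smul_def, Algebra.smul_def]
    have : algebraMap R K u * algebraMap R K p + algebraMap R K v * algebraMap R K s' = 1 := by
      rw [← map_mul, ← map_mul, ← map_add, huv, map_one]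
    linear_combination (-((algebraMap R K p)⁻¹ * z)) * this
  rw [h3]
  exact add_mem (M.smul_mem _ h2) (M.smul_mem _ h1)

omit [IsDomain R] [IsPrincipalIdealRing R] [IsFractionRing R K] in
/-- divisibility propagates through an irreducible elementary net -/
lemma dvb_row {p : R} (N : ElementaryNet R K n) (hN : N.Irreducible) {i j l : Fin n} (hij : i ≠ j)
    (hil : i ≠ l) (h : Dvb p (N.σ i j)) : Dvb p (N.σ i l) := by
  by_cases hjl : j = l
  · rwa [← hjl]
  obtain ⟨z, hz0, hz⟩ := h
  obtain ⟨w, hw, hw0⟩ := (N.σ j l).ne_bot_iff.1 (hN j l hjl)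
  refine ⟨z * w, mul_ne_zero hz0 hw0, fun m => ?_⟩
  have := N.mul_mem' i j l hij hjl hil _ (hz m) _ hw
  convert this using 1
  ring

omit [IsDomain R] [IsPrincipalIdealRing R] [IsFractionRing R K] in
lemma dvb_col {p : R} (N : ElementaryNet R K n) (hN : N.Irreducible) {i j l : Fin n} (hij : i ≠ j)
    (hlj : l ≠ j) (h : Dvb p (N.σ i j)) : Dvb p (N.σ l j) := by
  by_cases hil : l = i
  · rwa [hil]
  obtain ⟨z, hz0, hz⟩ := h
  obtain ⟨w, hw, hw0⟩ := (N.σ l i).ne_bot_iff.1 (hN l i hil)
  refine ⟨w * z, mul_ne_zero hw0 hz0, fun m => ?_⟩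
  have := N.mul_mem' l i j hil hij hlj _ hw _ (hz m)
  convert this using 1
  ring

lemma exists_third (hn : 3 ≤ n) (i j : Fin n) : ∃ r : Fin n, r ≠ i ∧ r ≠ j := by
  by_contra hcon
  push Not at hcon
  have h1 : (Finset.univ : Finset (Fin n)) ⊆ {i, j} := by
    intro r _
    rw [Finset.mem_insert, Finset.mem_singleton]
    by_cases h : r = i
    · exact Or.inl h
    · exact Or.inr (hcon r h)
  have h2 := Finset.card_le_card h1
  have h3 := Finset.card_le_two (a := i) (b := j)
  rw [Finset.card_univ, Fintype.card_fin] at h2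
  omega

omit [IsDomain R] [IsPrincipalIdealRing R] [IsFractionRing R K] in
lemma dvb_all {p : R} (hn : 3 ≤ n) (N : ElementaryNet R K n) (hN : N.Irreducible) {i j : Fin n}
    (hij : i ≠ j) (h : Dvb p (N.σ i j)) (k l : Fin n) (hkl : k ≠ l) : Dvb p (N.σ k l) := by
  by_cases hkj : k = j
  · obtain ⟨s, hsi, hsj⟩ := exists_third hn i j
    have h1 : Dvb p (N.σ i s) := dvb_row N hN hij hsi.symm h
    have h2 : Dvb p (N.σ k s) := dvb_col N hN hsi.symm (by rw [hkj]; exact hsj.symm) h1
    exact dvb_row N hN (by rw [hkj]; exact hsj.symm) hkl h2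
  · exact dvb_row N hN hkj hkl (dvb_col N hN hij hkj h)

lemma mult_inv_all (hn : 3 ≤ n) (N : ElementaryNet R K n) (hN : N.Irreducible) {i j : Fin n}
    (hij : i ≠ j) (k l : Fin n) (hkl : k ≠ l) (b : R) (hb : b ≠ 0)
    (h : Mult (N.σ i j) (algebraMap R K b)⁻¹) : Mult (N.σ k l) (algebraMap R K b)⁻¹ := by
  have hinj : Function.Injective (algebraMap R K) := IsFractionRing.injective R K
  induction b using WfDvdMonoid.induction_on_irreducible with
  | zero => exact absurd rfl hb
  | unit u hu =>
    obtain ⟨v, hv⟩ := hu.exists_right_inv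
    have h1 : (algebraMap R K u)⁻¹ = algebraMap R K v := by
      have h2 : algebraMap R K u * algebraMap R K v = 1 := by rw [← map_mul, hv, map_one]
      exact inv_eq_of_mul_eq_one_right h2
    rw [h1]
    exact Mult.algebraMap _ v
  | mul a p ha hp ih =>
    have ha0 : algebraMap R K a ≠ 0 := by
      rw [Ne, map_eq_zero_iff _ hinj]
      exact ha
    have hp0 : algebraMap R K p ≠ 0 := by
      rw [Ne, map_eq_zero_iff _ hinj]
      exact hp.ne_zero
    have h1 : Mult (N.σ i j) (algebraMap R K p)⁻¹ := by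
      have := (Mult.algebraMap (N.σ i j) a).mul h
      convert this using 1
      rw [map_mul]
      field_simp
    have h2 : Mult (N.σ i j) (algebraMap R K a)⁻¹ := by
      have := (Mult.algebraMap (N.σ i j) p).mul h
      convert this using 1
      rw [map_mul]
      field_simp
    have h3 := ih ha h2
    have h4 : Mult (N.σ k l) (algebraMap R K p)⁻¹ :=
      mult_of_dvb hp (dvb_all hn N hN hij (dvb_of_mult (hN i j hij) h1) k l hkl)
    have := h3.mul h4
    convert this using 1
    rw [map_mul, _root_.mul_inv_rev]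

/-- products of elements of opposite modules are multipliers of all modules -/
lemma mult_mul (hn : 3 ≤ n) (N : ElementaryNet R K n) (hN : N.Irreducible) {i j : Fin n}
    (hij : i ≠ j) {x y : K} (hx : x ∈ N.σ i j) (hy : y ∈ N.σ j i) (k l : Fin n) (hkl : k ≠ l) :
    Mult (N.σ k l) (x * y) := by
  have hinj : Function.Injective (algebraMap R K) := IsFractionRing.injective R K
  obtain ⟨r, hri, hrj⟩ := exists_third hn i j
  have h1 : Mult (N.σ i r) (x * y) := by
    intro z hz
    rw [mul_assoc]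
    exact N.mul_mem' i j r hij hrj.symm hri.symm _ hx _
      (N.mul_mem' j i r hij.symm hri.symm hrj.symm _ hy _ hz)
  obtain ⟨a, b, hcop, hab⟩ := IsFractionRing.exists_reduced_fraction (A := R) (x * y)
  have hb0 : (b : R) ≠ 0 := nonZeroDivisors.ne_zero b.2
  have hb1 : algebraMap R K (b : R) ≠ 0 := by
    rw [Ne, map_eq_zero_iff _ hinj]
    exact hb0
  rw [IsFractionRing.mk'_eq_div] at hab
  obtain ⟨u, v, huv⟩ := hcop.isCoprime
  have h2 : Mult (N.σ i r) (algebraMap R K (b : R))⁻¹ := by
    have h3 : (algebraMap R K (b : R))⁻¹ =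
        algebraMap R K u * (x * y) + algebraMap R K v := by
      rw [← hab]
      have : algebraMap R K u * algebraMap R K a + algebraMap R K v * algebraMap R K (b : R) = 1 := by
        rw [← map_mul, ← map_mul, ← map_add, huv, map_one]
      field_simp
      linear_combination -this
    rw [h3]
    exact ((Mult.algebraMap _ u).mul h1).add (Mult.algebraMap _ v)
  have h3 := mult_inv_all hn N hN hri.symm k l hkl (b : R) hb0 h2
  rw [← hab, div_eq_mul_inv]
  exact (Mult.algebraMap _ a).mul h3

/-- the matrices with off-diagonal entries in the net and diagonal entries multipliers -/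
def Good (N : ElementaryNet R K n) (A : Matrix (Fin n) (Fin n) K) : Prop :=
  (∀ i j, i ≠ j → A i j ∈ N.σ i j) ∧ ∀ i k l, k ≠ l → Mult (N.σ k l) (A i i)

omit [IsDomain R] [IsPrincipalIdealRing R] [IsFractionRing R K] in
lemma good_tr (N : ElementaryNet R K n) {i j : Fin n} (h : i ≠ j) {a : K} (ha : a ∈ N.σ i j) :
    Good N (1 + Matrix.single i j a) := by
  constructor
  · intro k l hkl
    rw [Matrix.add_apply, Matrix.one_apply_ne hkl, zero_add, Matrix.single_apply]
    split_ifs with h1
    · obtain ⟨rfl, rfl⟩ := h1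
      exact ha
    · exact zero_mem _
  · intro m k l hkl
    rw [Matrix.add_apply, Matrix.one_apply_eq, Matrix.single_apply]
    have : ¬ (i = m ∧ j = m) := by
      rintro ⟨rfl, rfl⟩
      exact h rfl
    rw [if_neg this, add_zero]
    exact Mult.one _

omit [IsDomain R] [IsPrincipalIdealRing R] [IsFractionRing R K] in
lemma Mult.sum {ι : Type*} (s : Finset ι) {M : Submodule R K} {x : ι → K}
    (h : ∀ i ∈ s, Mult M (x i)) : Mult M (∑ i ∈ s, x i) := by
  intro z hz
  rw [Finset.sum_mul]
  exact sum_mem fun i hi => h i hi z hz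

lemma Good.mul (hn : 3 ≤ n) (N : ElementaryNet R K n) (hN : N.Irreducible)
    {A B : Matrix (Fin n) (Fin n) K} (hA : Good N A) (hB : Good N B) : Good N (A * B) := by
  constructor
  · intro i j hij
    rw [Matrix.mul_apply]
    refine sum_mem fun r _ => ?_
    by_cases hir : i = r
    · subst hir
      exact hA.2 i i j hij _ (hB.1 i j hij)
    by_cases hrj : r = j
    · subst hrj
      rw [mul_comm]
      exact hB.2 r i r hij _ (hA.1 i r hij)
    exact N.mul_mem' i r j hir hrj hij _ (hA.1 i r hir) _ (hB.1 r j hrj)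
  · intro i k l hkl
    rw [Matrix.mul_apply]
    refine Mult.sum _ fun r _ => ?_
    by_cases hir : i = r
    · subst hir
      exact (hA.2 i k l hkl).mul (hB.2 i k l hkl)
    exact mult_mul hn N hN hir (hA.1 i r hir) (hB.1 r i (Ne.symm hir)) k l hkl

lemma good_of_mem (hn : 3 ≤ n) (N : ElementaryNet R K n) (hN : N.Irreducible)
    {g : GL (Fin n) K} (hg : g ∈ N.E) : Good N (g : Matrix (Fin n) (Fin n) K) := by
  suffices h : Good N (g : Matrix (Fin n) (Fin n) K) ∧
      Good N ((g⁻¹ : GL (Fin n) K) : Matrix (Fin n) (Fin n) K) from h.1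
  induction hg using Subgroup.closure_induction with
  | mem g hg =>
    obtain ⟨i, j, hij, a, ha, hga⟩ := hg
    have h1 : g = tr i j hij a := Units.ext hga
    subst h1
    exact ⟨good_tr N hij ha, good_tr N hij (neg_mem ha)⟩
  | one =>
    have h1 : Good N (1 : Matrix (Fin n) (Fin n) K) := by
      constructor
      · intro i j hij
        rw [Matrix.one_apply_ne hij]
        exact zero_mem _
      · intro i k l _
        rw [Matrix.one_apply_eq]
        exact Mult.one _
    rw [inv_one]
    exact ⟨h1, h1⟩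
  | mul g h _ _ hg hh =>
    refine ⟨?_, ?_⟩
    · exact hg.1.mul hn N hN hh.1
    · rw [_root_.mul_inv_rev]
      exact hh.2.mul hn N hN hg.2
  | inv g _ hg =>
    rw [inv_inv]
    exact ⟨hg.2, hg.1⟩

lemma closed_of_fractionRing (hn : 3 ≤ n) (N : ElementaryNet R K n) (hN : N.Irreducible) :
    N.Closed := by
  intro i j hij a g hg hga
  have h1 := (good_of_mem hn N hN hg).1 i j hij
  rw [hga, Matrix.add_apply, Matrix.one_apply_ne hij, zero_add, Matrix.single_apply_same] at h1
  exact h1

end Closed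

/-! ### Nets which are not closed -/

section NotClosed

variable {R K : Type*} [CommRing R] [IsDomain R] [IsPrincipalIdealRing R] [Field K] [Algebra R K]

/-- the module `π O` -/
def piO (O : Subalgebra R K) (π : R) : Submodule R K :=
  (Subalgebra.toSubmodule O).map (LinearMap.lsmul R K π)

omit [IsDomain R] [IsPrincipalIdealRing R] in
lemma mem_piO {O : Subalgebra R K} {π : R} {x : K} : x ∈ piO O π ↔ ∃ y ∈ O, π • y = x := by
  simp [piO]

/-- the module `R + π O` -/
def rpiO (O : Subalgebra R K) (π : R) : Submodule R K := 1 ⊔ piO O π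

omit [IsDomain R] [IsPrincipalIdealRing R] in
lemma piO_le (O : Subalgebra R K) (π : R) : piO O π ≤ Subalgebra.toSubmodule O := by
  intro x hx
  obtain ⟨y, hy, rfl⟩ := mem_piO.1 hx
  exact O.smul_mem hy π

omit [IsDomain R] [IsPrincipalIdealRing R] in
lemma rpiO_le (O : Subalgebra R K) (π : R) : rpiO O π ≤ Subalgebra.toSubmodule O := by
  refine sup_le ?_ (piO_le O π)
  intro x hx
  obtain ⟨r, rfl⟩ := Submodule.mem_one.1 hx
  exact O.algebraMap_mem r

omit [IsDomain R] [IsPrincipalIdealRing R] in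
lemma mul_mem_piO {O : Subalgebra R K} {π : R} {x y : K} (hx : x ∈ piO O π) (hy : y ∈ O) :
    x * y ∈ piO O π := by
  obtain ⟨z, hz, rfl⟩ := mem_piO.1 hx
  rw [smul_mul_assoc]
  exact mem_piO.2 ⟨z * y, O.mul_mem hz hy, rfl⟩

lemma theta_not_mem {θ : K} [FaithfulSMul R K] (hθ : IsIntegral R θ)
    (hθ' : θ ∉ (algebraMap R K).range) {π : R} (hπ : ¬ IsUnit π) :
    θ ∉ rpiO (Algebra.adjoin R {θ}) π := by
  intro hmem
  obtain ⟨x, hx, y, hy, hxy⟩ := Submodule.mem_sup.1 hmem
  obtain ⟨r, rfl⟩ := Submodule.mem_one.1 hx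
  obtain ⟨z, hz, rfl⟩ := mem_piO.1 hy
  rw [Algebra.adjoin_singleton_eq_range_aeval] at hz
  obtain ⟨q, hq⟩ := hz
  have hmonic : (minpoly R θ).Monic := minpoly.monic hθ
  have hdeg : 2 ≤ (minpoly R θ).natDegree := by
    have h1 : 0 < (minpoly R θ).natDegree := minpoly.natDegree_pos hθ
    have h2 : (minpoly R θ).natDegree ≠ 1 := fun h => hθ' (minpoly.natDegree_eq_one_iff.1 h)
    omega
  set q' := q %ₘ (minpoly R θ) with hq'
  have hz' : Polynomial.aeval θ q' = z := by
    have h1 := Polynomial.modByMonic_add_div q (minpoly R θ)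
    have h2 := congrArg (Polynomial.aeval θ) h1
    rw [map_add, map_mul, minpoly.aeval, zero_mul, add_zero] at h2
    rw [hq', h2]
    exact hq
  have hne1 : minpoly R θ ≠ 1 := by
    intro h
    rw [h] at hdeg
    simp at hdeg
  have hdq : q'.natDegree < (minpoly R θ).natDegree := Polynomial.natDegree_modByMonic_lt q hmonic hne1
  set f : Polynomial R := Polynomial.X - Polynomial.C r - Polynomial.C π * q' with hf
  have hf0 : Polynomial.aeval θ f = 0 := by
    rw [hf, map_sub, map_sub, map_mul, Polynomial.aeval_X, Polynomial.aeval_C, Polynomial.aeval_C,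
      hz', ← Algebra.smul_def]
    linear_combination -hxy
  have hfd : f.natDegree < (minpoly R θ).natDegree := by
    refine lt_of_le_of_lt (Polynomial.natDegree_sub_le _ _) (max_lt ?_ ?_)
    · refine lt_of_le_of_lt (Polynomial.natDegree_sub_le _ _) (max_lt ?_ ?_)
      · exact lt_of_le_of_lt Polynomial.natDegree_X_le (by omega)
      · rw [Polynomial.natDegree_C]
        omega
    · exact lt_of_le_of_lt (Polynomial.natDegree_C_mul_le _ _) hdq
  have hdvd : minpoly R θ ∣ f := minpoly.isIntegrallyClosed_dvd hθ hf0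
  have hfz : f = 0 := by
    by_contra hne
    have := Polynomial.natDegree_le_of_dvd hdvd hne
    omega
  have hc := congrArg (fun g : Polynomial R => g.coeff 1) hfz
  simp only [hf, Polynomial.coeff_sub, Polynomial.coeff_X_one, Polynomial.coeff_C_mul,
    Polynomial.coeff_zero] at hc
  rw [Polynomial.coeff_C_of_ne_zero (by norm_num : (1 : ℕ) ≠ 0)] at hc
  apply hπ
  exact IsUnit.of_mul_eq_one (q'.coeff 1) (by linear_combination -hc)

/-- the net `σ₁₂ = R + π O`, `σ₁ⱼ = σ₂ⱼ = π O` for `j ≥ 3`, all other modules equal to `O` -/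
def theNet (n : ℕ) (O : Subalgebra R K) (π : R) : ElementaryNet R K n where
  σ i j := if (i : ℕ) = 0 ∧ (j : ℕ) = 1 then rpiO O π
    else if (i : ℕ) ≤ 1 ∧ 2 ≤ (j : ℕ) then piO O π else Subalgebra.toSubmodule O
  mul_mem' := by
    intro i r j hir hrj hij a ha b hb
    have hir' : (i : ℕ) ≠ (r : ℕ) := fun h => hir (Fin.ext h)
    have hrj' : (r : ℕ) ≠ (j : ℕ) := fun h => hrj (Fin.ext h)
    have hij' : (i : ℕ) ≠ (j : ℕ) := fun h => hij (Fin.ext h)
    have hle : ∀ i j : Fin n, (if (i : ℕ) = 0 ∧ (j : ℕ) = 1 then rpiO O π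
        else if (i : ℕ) ≤ 1 ∧ 2 ≤ (j : ℕ) then piO O π else Subalgebra.toSubmodule O) ≤
        Subalgebra.toSubmodule O := by
      intro i j
      split_ifs
      · exact rpiO_le O π
      · exact piO_le O π
      · exact le_rfl
    have ha' : a ∈ O := hle _ _ ha
    have hb' : b ∈ O := hle _ _ hb
    by_cases h1 : (i : ℕ) = 0 ∧ (j : ℕ) = 1
    · rw [if_pos h1]
      have h2 : ¬ ((i : ℕ) = 0 ∧ (r : ℕ) = 1) := by omega
      have h3 : (i : ℕ) ≤ 1 ∧ 2 ≤ (r : ℕ) := by omega
      rw [if_neg h2, if_pos h3] at ha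
      exact Submodule.mem_sup_right (mul_mem_piO ha hb')
    rw [if_neg h1]
    by_cases h2 : (i : ℕ) ≤ 1 ∧ 2 ≤ (j : ℕ)
    · rw [if_pos h2]
      by_cases h3 : 2 ≤ (r : ℕ)
      · have h4 : ¬ ((i : ℕ) = 0 ∧ (r : ℕ) = 1) := by omega
        rw [if_neg h4, if_pos ⟨h2.1, h3⟩] at ha
        exact mul_mem_piO ha hb'
      · have h4 : ¬ ((r : ℕ) = 0 ∧ (j : ℕ) = 1) := by omega
        have h5 : (r : ℕ) ≤ 1 ∧ 2 ≤ (j : ℕ) := by omega
        rw [if_neg h4, if_pos h5] at hb
        rw [mul_comm]
        exact mul_mem_piO hb ha'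
    · rw [if_neg h2]
      exact O.mul_mem ha' hb'

omit [IsDomain R] [IsPrincipalIdealRing R] in
lemma theNet_irreducible (n : ℕ) [FaithfulSMul R K] (O : Subalgebra R K) {π : R} (hπ : π ≠ 0) :
    (theNet n O π).Irreducible := by
  intro i j _
  rw [Submodule.ne_bot_iff]
  have h1 : algebraMap R K π ∈ piO O π := mem_piO.2 ⟨1, O.one_mem, by rw [Algebra.smul_def, mul_one]⟩
  have h2 : algebraMap R K π ≠ 0 := by
    rw [Ne, FaithfulSMul.algebraMap_eq_zero_iff]
    exact hπ
  refine ⟨algebraMap R K π, ?_, h2⟩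
  show algebraMap R K π ∈ (if (i : ℕ) = 0 ∧ (j : ℕ) = 1 then rpiO O π
    else if (i : ℕ) ≤ 1 ∧ 2 ≤ (j : ℕ) then piO O π else Subalgebra.toSubmodule O)
  split_ifs
  · exact Submodule.mem_sup_right h1
  · exact h1
  · exact piO_le O π h1

lemma theNet_not_closed {n : ℕ} (hn : 2 ≤ n) [FaithfulSMul R K] {θ : K} (hθ : IsIntegral R θ)
    (hθ' : θ ∉ (algebraMap R K).range) {π : R} (hπ : ¬ IsUnit π) :
    ¬ (theNet n (Algebra.adjoin R {θ}) π).Closed := by
  have h01 : (⟨0, by omega⟩ : Fin n) ≠ ⟨1, by omega⟩ := by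
    intro h
    simpa using congrArg Fin.val h
  refine not_closed (c := θ) _ h01 ?_ ?_ ?_ ?_
  · show (1 : K) ∈ (if (0 : ℕ) = 0 ∧ (1 : ℕ) = 1 then rpiO (Algebra.adjoin R {θ}) π
      else if (0 : ℕ) ≤ 1 ∧ 2 ≤ (1 : ℕ) then piO (Algebra.adjoin R {θ}) π
      else Subalgebra.toSubmodule (Algebra.adjoin R {θ}))
    rw [if_pos ⟨rfl, rfl⟩]
    exact Submodule.mem_sup_left (Submodule.one_le.1 le_rfl)
  · show (1 : K) ∈ (if (1 : ℕ) = 0 ∧ (0 : ℕ) = 1 then rpiO (Algebra.adjoin R {θ}) π
      else if (1 : ℕ) ≤ 1 ∧ 2 ≤ (0 : ℕ) then piO (Algebra.adjoin R {θ}) π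
      else Subalgebra.toSubmodule (Algebra.adjoin R {θ}))
    rw [if_neg (by omega), if_neg (by omega)]
    exact (Algebra.adjoin R {θ}).one_mem
  · show θ ∈ (if (1 : ℕ) = 0 ∧ (0 : ℕ) = 1 then rpiO (Algebra.adjoin R {θ}) π
      else if (1 : ℕ) ≤ 1 ∧ 2 ≤ (0 : ℕ) then piO (Algebra.adjoin R {θ}) π
      else Subalgebra.toSubmodule (Algebra.adjoin R {θ}))
    rw [if_neg (by omega), if_neg (by omega)]
    exact Algebra.self_mem_adjoin_singleton R θ
  · show θ ∉ (if (0 : ℕ) = 0 ∧ (1 : ℕ) = 1 then rpiO (Algebra.adjoin R {θ}) π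
      else if (0 : ℕ) ≤ 1 ∧ 2 ≤ (1 : ℕ) then piO (Algebra.adjoin R {θ}) π
      else Subalgebra.toSubmodule (Algebra.adjoin R {θ}))
    rw [if_pos ⟨rfl, rfl⟩]
    exact theta_not_mem hθ hθ' hπ

/-- the net `σ₁₂ = R`, `σ₂₁ = π⁻¹ R` of order two -/
def twoNet (π : R) : ElementaryNet R K 2 where
  σ i j := if (i : ℕ) = 0 then 1 else Submodule.span R {(algebraMap R K π)⁻¹}
  mul_mem' := by
    intro i r j hir hrj hij
    exfalso
    omega

omit [IsDomain R] [IsPrincipalIdealRing R] in
lemma twoNet_irreducible [FaithfulSMul R K] {π : R} (hπ : π ≠ 0) :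
    (twoNet π : ElementaryNet R K 2).Irreducible := by
  intro i j _
  have h2 : algebraMap R K π ≠ 0 := by
    rw [Ne, FaithfulSMul.algebraMap_eq_zero_iff]
    exact hπ
  show (if (i : ℕ) = 0 then (1 : Submodule R K) else Submodule.span R {(algebraMap R K π)⁻¹}) ≠ ⊥
  split_ifs
  · rw [Submodule.ne_bot_iff]
    exact ⟨1, Submodule.one_le.1 le_rfl, one_ne_zero⟩
  · rw [Ne, Submodule.span_singleton_eq_bot]
    exact inv_ne_zero h2

omit [IsDomain R] [IsPrincipalIdealRing R] in
lemma twoNet_not_closed [FaithfulSMul R K] {π : R} (hπ : π ≠ 0) (hπ' : ¬ IsUnit π) :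
    ¬ (twoNet π : ElementaryNet R K 2).Closed := by
  have h2 : algebraMap R K π ≠ 0 := by
    rw [Ne, FaithfulSMul.algebraMap_eq_zero_iff]
    exact hπ
  have h01 : (0 : Fin 2) ≠ 1 := by decide
  refine not_closed (c := (algebraMap R K π)⁻¹) _ h01 ?_ ?_ ?_ ?_
  · show (1 : K) ∈ (if (0 : ℕ) = 0 then (1 : Submodule R K) else
      Submodule.span R {(algebraMap R K π)⁻¹})
    rw [if_pos rfl]
    exact Submodule.one_le.1 le_rfl
  · show (1 : K) ∈ (if (1 : ℕ) = 0 then (1 : Submodule R K) else
      Submodule.span R {(algebraMap R K π)⁻¹})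
    rw [if_neg (by omega)]
    refine Submodule.mem_span_singleton.2 ⟨π, ?_⟩
    rw [Algebra.smul_def, mul_inv_cancel₀ h2]
  · show (algebraMap R K π)⁻¹ ∈ (if (1 : ℕ) = 0 then (1 : Submodule R K) else
      Submodule.span R {(algebraMap R K π)⁻¹})
    rw [if_neg (by omega)]
    exact Submodule.mem_span_singleton_self _
  · show (algebraMap R K π)⁻¹ ∉ (if (0 : ℕ) = 0 then (1 : Submodule R K) else
      Submodule.span R {(algebraMap R K π)⁻¹})
    rw [if_pos rfl]
    intro hmem
    obtain ⟨r, hr⟩ := Submodule.mem_one.1 hmem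
    apply hπ'
    refine IsUnit.of_mul_eq_one r ?_
    apply FaithfulSMul.algebraMap_injective R K
    rw [map_mul, hr, map_one, mul_inv_cancel₀ h2]

end NotClosed

universe u v w

/-- **Main result.** Let `R` be a principal ideal domain which is not a field, `k` its field of
fractions, `K` an algebraic extension of `k` and `n ≥ 2`. Then all irreducible elementary nets of
order `n` over `K` consisting of `R`-modules are closed if and only if `n ≥ 3` and `K = k`. -/
theorem result (R : Type u) (k : Type v) (K : Type w) [CommRing R] [IsDomain R]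
    [IsPrincipalIdealRing R] (hR : ¬ IsField R) [Field k] [Algebra R k] [IsFractionRing R k]
    [Field K] [Algebra R K] [Algebra k K] [IsScalarTower R k K] [Algebra.IsAlgebraic k K]
    (n : ℕ) (hn : 2 ≤ n) :
    (∀ N : ElementaryNet R K n, N.Irreducible → N.Closed) ↔
      3 ≤ n ∧ Function.Bijective (algebraMap k K) := by
  have hinj : Function.Injective (algebraMap k K) := (algebraMap k K).injective
  have hinjR : Function.Injective (algebraMap R K) := by
    rw [IsScalarTower.algebraMap_eq R k K]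
    exact hinj.comp (IsFractionRing.injective R k)
  have : FaithfulSMul R K := (faithfulSMul_iff_algebraMap_injective R K).2 hinjR
  obtain ⟨π, hπ0, hπ⟩ : ∃ π : R, π ≠ 0 ∧ ¬ IsUnit π := by
    by_contra hcon
    push Not at hcon
    exact hR ⟨exists_pair_ne R, mul_comm, fun h => (hcon _ h).exists_right_inv⟩
  constructor
  · intro h
    have hn3 : 3 ≤ n := by
      by_contra hn3
      have hn2 : n = 2 := by omega
      subst hn2
      exact twoNet_not_closed hπ0 hπ (h (twoNet π) (twoNet_irreducible hπ0))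
    refine ⟨hn3, hinj, ?_⟩
    by_contra hsurj
    rw [Function.Surjective] at hsurj
    push Not at hsurj
    obtain ⟨θ₀, hθ₀⟩ := hsurj
    have halg : IsAlgebraic R θ₀ :=
      (IsFractionRing.isAlgebraic_iff R k K).2 (Algebra.IsAlgebraic.isAlgebraic θ₀)
    obtain ⟨d, hd0, hd⟩ := halg.exists_integral_multiple
    have hθ' : d • θ₀ ∉ (algebraMap R K).range := by
      rintro ⟨r, hr⟩
      apply hθ₀ (algebraMap R k r / algebraMap R k d)
      have hd' : algebraMap R K d ≠ 0 := by
        rw [Ne, FaithfulSMul.algebraMap_eq_zero_iff]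
        exact hd0
      rw [map_div₀, ← IsScalarTower.algebraMap_apply, ← IsScalarTower.algebraMap_apply, hr,
        Algebra.smul_def, mul_div_cancel_left₀ _ hd']
    exact theNet_not_closed hn hd hθ' hπ (h _ (theNet_irreducible n _ hπ0))
  · rintro ⟨hn3, hbij⟩ N hN
    have : IsFractionRing R K := by
      have e : k ≃ₐ[R] K := AlgEquiv.ofBijective (IsScalarTower.toAlgHom R k K) hbij
      exact IsLocalization.isLocalization_of_algEquiv (nonZeroDivisors R) e
    exact closed_of_fractionRing hn3 N hN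

end Pool.Agent.Results.MP_9bf48e_al.ClosedNets
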